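import Pool.Agent.Helper14.TL7.StD

/-!
# Project TL (levels `4 * 7^n`), module Lif: lifting twisted symbols modulo 7 to integral symbols
-/

set_option autoImplicit false

namespace Pool.Agent.Helper61.TL7

open Pool.Agent.Helper14.TL7
open Pool.Agent.Helper14.CV (Homog EqC act Tl)
open Pool.Agent.Helper4.TL (eps OkE SymE evLE)
open Pool.Agent.Helper76.S7 (Pl7 rY7 edge7 S7PlA S7PlU)
open Pool.Agent.Helper76.TL7 (edgeE7 EEdg7)
open Pool.Agent.Helper84.S7

/-- the reduction modulo seven -/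
private def red (G : ℤ → ℤ → ℤ) : ℤ → ℤ → ZMod 7 := fun p q => ((G p q : ℤ) : ZMod 7)

private theorem red_Sym {r s : ℕ} {G : ℤ → ℤ → ℤ} (h : SymE 7 r s G) : SymE 7 r s (red G) := by
  refine ⟨?_, ?_⟩
  · intro k p q hk hpq
    change ((G (k * p) (k * q) : ℤ) : ZMod 7) = ((G p q : ℤ) : ZMod 7)
    rw [h.1 k p q hk hpq]
  · intro a b c d hdet hb hc
    obtain ⟨e, he⟩ := h.2 a b c d hdet hb hc
    refine ⟨(e : ZMod 7), ?_⟩
    intro p q hpq
    have h1 := he p q hpq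
    have h2 : G (a * p + b * q) (c * p + d * q) = eps a b c d • G p q + e := h1
    change ((G (a * p + b * q) (c * p + d * q) : ℤ) : ZMod 7) = eps a b c d • ((G p q : ℤ) : ZMod 7) + e
    rw [h2, Int.cast_add, smul_eq_mul, Int.cast_mul, zsmul_eq_mul]

private theorem red_Tl (l : ℕ) (m : ℤ) (G : ℤ → ℤ → ℤ) : Tl l m (red G) = red (Tl l m G) := by
  funext p q
  change red G (l * p) q + ∑ j ∈ Finset.range l, red G (p + m * j * q) (l * q)
    = ((G (l * p) q + ∑ j ∈ Finset.range l, G (p + m * j * q) (l * q) : ℤ) : ZMod 7)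
  rw [Int.cast_add, Int.cast_sum]
  rfl

private theorem red_add (G H : ℤ → ℤ → ℤ) : red G + red H = red (G + H) := by
  funext p q
  simp only [Pi.add_apply, red, Int.cast_add]

private theorem red_sub (G H : ℤ → ℤ → ℤ) : red G - red H = red (G - H) := by
  funext p q
  simp only [Pi.sub_apply, red, Int.cast_sub]

private theorem red_zsmul (k : ℤ) (G : ℤ → ℤ → ℤ) : k • red G = red (k • G) := by
  funext p q
  simp only [Pi.smul_apply, red, zsmul_eq_mul, smul_eq_mul, Int.cast_mul]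

private theorem red_UoE (m : ℤ) (G : ℤ → ℤ → ℤ) : UoE m (red G) = red (UoE m G) := by
  simp only [UoE, red_Tl, red_sub, red_zsmul]

private theorem red_VoE (m : ℤ) (G : ℤ → ℤ → ℤ) : VoE m (red G) = red (VoE m G) := by
  simp only [VoE, red_Tl, red_add, red_zsmul]

private theorem red_OoE (c : ℕ) (m : ℤ) (G : ℤ → ℤ → ℤ) : OoE c m (red G) = red (OoE c m G) := by
  unfold OoE
  split_ifs <;> simp only [red_Tl, red_add, red_zsmul]

private theorem red_iter (U : (ℤ → ℤ → ZMod 7) → (ℤ → ℤ → ZMod 7))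
    (V : (ℤ → ℤ → ℤ) → (ℤ → ℤ → ℤ)) (h : ∀ G, U (red G) = red (V G)) (i : ℕ) (G : ℤ → ℤ → ℤ) :
    U^[i] (red G) = red (V^[i] G) := by
  induction i generalizing G with
  | zero => rfl
  | succ i ih =>
    rw [Function.iterate_succ_apply, Function.iterate_succ_apply, h, ih]

private theorem red_ev (m : ℤ) (G : ℤ → ℤ → ℤ) (c i j : ℕ) :
    evE m (red G) c i j = ((evE m G c i j : ℤ) : ZMod 7) := by
  unfold evE
  rw [red_iter (VoE m) (VoE m) (red_VoE m), red_iter (UoE m) (UoE m) (red_UoE m),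
    red_OoE, Int.cast_sub]
  rfl

private theorem red_pf {q q' : ℕ} (G : ℤ → ℤ → ℤ) (i : Fin 2) (x : ZMod q) (y : ZMod q') :
    pfE (red G) i x y = ((pfE G i x y : ℤ) : ZMod 7) := by
  unfold pfE edgeE7 edge7
  rw [smul_eq_mul, Int.cast_mul, Int.cast_sub, zsmul_eq_mul]
  rfl

private theorem sub_pf {q q' : ℕ} (G H : ℤ → ℤ → ZMod 7) (i : Fin 2) (x : ZMod q) (y : ZMod q') :
    pfE (G + -H) i x y = pfE G i x y - pfE H i x y := by
  unfold pfE edgeE7 edge7
  rw [← smul_sub]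
  congr 1
  simp only [Pi.add_apply, Pi.neg_apply]
  abel

/-! `evE` depends only on the class up to constants -/

private theorem eqC_Tl {G H : ℤ → ℤ → ZMod 7} (l : ℕ) (hl : l ≠ 0) (m : ℤ) (h : EqC G H) :
    EqC (Tl l m G) (Tl l m H) := by
  obtain ⟨c, hc⟩ := h
  refine ⟨c + (l : ZMod 7) * c, fun p q hpq => ?_⟩
  have hl' : (l : ℤ) ≠ 0 := by exact_mod_cast hl
  simp only [Tl]
  rw [hc (l * p) q (by
    rcases hpq with h0 | h0
    · exact Or.inl (mul_ne_zero hl' h0)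
    · exact Or.inr h0)]
  have hs : ∑ j ∈ Finset.range l, G (p + m * j * q) (l * q) =
      ∑ j ∈ Finset.range l, (H (p + m * j * q) (l * q) + c) := by
    refine Finset.sum_congr rfl fun j _ => hc _ _ ?_
    by_cases hq : q = 0
    · left
      rcases hpq with h0 | h0
      · rw [hq, mul_zero, add_zero]; exact h0
      · exact absurd hq h0
    · right
      exact mul_ne_zero hl' hq
  rw [hs, Finset.sum_add_distrib, Finset.sum_const, Finset.card_range, nsmul_eq_mul]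
  ring

private theorem eqC_add {G H G' H' : ℤ → ℤ → ZMod 7} (h : EqC G H) (h' : EqC G' H') :
    EqC (G + G') (H + H') := by
  obtain ⟨c, hc⟩ := h
  obtain ⟨c', hc'⟩ := h'
  refine ⟨c + c', fun p q hpq => ?_⟩
  simp only [Pi.add_apply]
  rw [hc p q hpq, hc' p q hpq]
  ring

private theorem eqC_sub {G H G' H' : ℤ → ℤ → ZMod 7} (h : EqC G H) (h' : EqC G' H') :
    EqC (G - G') (H - H') := by
  obtain ⟨c, hc⟩ := h
  obtain ⟨c', hc'⟩ := h'
  refine ⟨c - c', fun p q hpq => ?_⟩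
  simp only [Pi.sub_apply]
  rw [hc p q hpq, hc' p q hpq]
  ring

private theorem eqC_zsmul {G H : ℤ → ℤ → ZMod 7} (k : ℤ) (h : EqC G H) :
    EqC (k • G) (k • H) := by
  obtain ⟨c, hc⟩ := h
  refine ⟨k • c, fun p q hpq => ?_⟩
  simp only [Pi.smul_apply]
  rw [hc p q hpq, smul_add]

private theorem eqC_Uo {G H : ℤ → ℤ → ZMod 7} (m : ℤ) (h : EqC G H) : EqC (UoE m G) (UoE m H) :=
  eqC_sub (eqC_sub (eqC_Tl 11 (by norm_num) m h) (eqC_Tl 3 (by norm_num) m (eqC_Tl 3 (by norm_num) m h)))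
    (eqC_zsmul 3 h)

private theorem eqC_Vo {G H : ℤ → ℤ → ZMod 7} (m : ℤ) (h : EqC G H) : EqC (VoE m G) (VoE m H) :=
  eqC_add (eqC_add (eqC_add (eqC_add (eqC_add (eqC_zsmul 5 h) (eqC_Tl 11 (by norm_num) m h))
    (eqC_zsmul 5 (eqC_Tl 29 (by norm_num) m h))) (eqC_zsmul 4 (eqC_Tl 37 (by norm_num) m h)))
    (eqC_zsmul 5 (eqC_Tl 43 (by norm_num) m h)))
    (eqC_Tl 3 (by norm_num) m (eqC_add (eqC_Tl 13 (by norm_num) m h)
      (eqC_zsmul 5 (eqC_Tl 5 (by norm_num) m h))))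

private theorem eqC_Oo {G H : ℤ → ℤ → ZMod 7} (c : ℕ) (m : ℤ) (h : EqC G H) :
    EqC (OoE c m G) (OoE c m H) := by
  unfold OoE
  split_ifs
  · exact h
  · exact eqC_add (eqC_Tl 3 (by norm_num) m h) h
  · exact eqC_add (eqC_Tl 5 (by norm_num) m h) (eqC_zsmul 4 (eqC_Tl 3 (by norm_num) m h))
  · exact eqC_add (eqC_add (eqC_add (eqC_add (eqC_add (eqC_zsmul 3 h)
      (eqC_zsmul 2 (eqC_Tl 11 (by norm_num) m h))) (eqC_Tl 13 (by norm_num) m h))
      (eqC_Tl 17 (by norm_num) m h)) (eqC_zsmul 5 (eqC_Tl 19 (by norm_num) m h)))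
      (eqC_Tl 3 (by norm_num) m (eqC_Tl 5 (by norm_num) m h))

private theorem eqC_iter (U : (ℤ → ℤ → ZMod 7) → (ℤ → ℤ → ZMod 7))
    (hU : ∀ G H, EqC G H → EqC (U G) (U H)) (i : ℕ) {G H : ℤ → ℤ → ZMod 7} (h : EqC G H) :
    EqC (U^[i] G) (U^[i] H) := by
  induction i generalizing G H with
  | zero => exact h
  | succ i ih =>
    rw [Function.iterate_succ_apply, Function.iterate_succ_apply]
    exact ih (hU G H h)

private theorem evE_congr (m : ℤ) {G H : ℤ → ℤ → ZMod 7} (h : EqC G H) (c i j : ℕ) :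
    evE m G c i j = evE m H c i j := by
  obtain ⟨e, he⟩ := eqC_Oo c m
    (eqC_iter (UoE m) (fun _ _ => eqC_Uo m) i (eqC_iter (VoE m) (fun _ _ => eqC_Vo m) j h))
  unfold evE
  rw [he 1 0 (Or.inl one_ne_zero), he 0 1 (Or.inr one_ne_zero)]
  ring

/-- MODULE Lif. -/
theorem hLif (hr : TRel) (hp : TLifp) (hx : TEx) (hu : TUni) : TLif := by
  intro r s g hg
  have h1 := hr (ZMod 7) _ r s g hg
  obtain ⟨F, hF, hF1⟩ := hp r s _ h1
  obtain ⟨G, hG, hG1⟩ := hx ℤ _ r s F hF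
  refine ⟨G, hG, ?_⟩
  have h2 : SymE 7 r (s + 1) (red G + -g) :=
    Pool.Agent.Helper4.TL.SymE.add (red_Sym hG) (Pool.Agent.Helper4.TL.SymE.neg hg)
  have h3 : EqC (red G + -g) 0 := by
    refine hu (ZMod 7) _ r s _ h2 fun i => ?_
    funext x y
    rw [sub_pf, red_pf, hG1, hF1, sub_self]
    rfl
  have h4 : EqC (red G) g := by
    obtain ⟨c, hc⟩ := h3
    refine ⟨c, fun p q hpq => ?_⟩
    have h5 := hc p q hpq
    simp only [Pi.add_apply, Pi.neg_apply, Pi.zero_apply, zero_add] at h5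
    rw [← h5]
    abel
  intro c i j
  rw [← red_ev]
  exact evE_congr _ h4 c i j

end Pool.Agent.Helper61.TL7
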